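import Pool.Agent.H978R3.Montel

/-!
The convolution class `T(α,β)` is a normal family for all real `α > 0`, `β > 0`
(in particular for all `α ≥ 1`, `β ≥ 1`).

Idea. Write `b = β - α`, `h = φ * (1-z)^(-b)` (the convolution at `x = -1`) and expand the
convolution `F(x,z)` at `x = -1`:
`F(y-1,z) = ∑_j C(α,j) (yz)^j h^(j)(z)/(b)_j`.
By a Hurwitz type argument `F(x,z) ≠ 0` for all `|x| ≤ 1`, `|z| < 1`; so `h` has no zeros.
If the class is not normal, the Borel growth lemma and the Borel-Caratheodory inequality give points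
`z` at which `Q = u z h'/h` is large, `Re Q` is maximal on the circle through `z`, and `h'/h` is nearly
constant on a disc much larger than `|h'/h|^(-1)`. There `F(t/Q - 1, z)/h(z)` is close to the entire
function `∑_j C(α,j) t^j/(b)_j`, which has a zero `t₀` (otherwise it would be `exp(ct)`, forcing
`β = 0`). Choosing the direction `u = t₀/|t₀|` produces a zero of `F` with `|x| ≤ 1`, a contradiction.
If `b = -N` is a nonpositive integer, `h` is a polynomial of degree at most `N` with bounded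
coefficients and the same scheme is applied to `z^(N+1) k_(N+1)/h`, the limit function being
`1 - v^(N+1)`.
-/

open Metric Filter Topology

namespace Pool.Agent.Results.MP_c40ba2_an.Normality

/-- `k`-th Taylor coefficient at `0`. -/
noncomputable def taylorCoeff (f : ℂ → ℂ) (k : ℕ) : ℂ := iteratedDeriv k f 0 / (k.factorial : ℂ)

/-- Hadamard product (convolution) of two functions analytic in the unit disc. -/
noncomputable def hadamard (f g : ℂ → ℂ) (z : ℂ) : ℂ :=
  ∑' k : ℕ, taylorCoeff f k * taylorCoeff g k * z ^ k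

/-- The kernel `(1 + x z)^α (1 - z)^(-β)`; principal branches, equal to `1` at `z = 0`. -/
noncomputable def kernel (α β : ℝ) (x : ℂ) (z : ℂ) : ℂ :=
  (1 + x * z) ^ (α : ℂ) * (1 - z) ^ (-(β : ℂ))

/-- The class `T(α,β)`. -/
def T (α β : ℝ) : Set (ℂ → ℂ) :=
  {φ | DifferentiableOn ℂ φ (ball 0 1) ∧ φ 0 = 1 ∧
    ∀ x : ℂ, ‖x‖ = 1 → ∀ z ∈ ball (0 : ℂ) 1, hadamard φ (kernel α β x) z ≠ 0}

open Pool.Agent.H978R3 in
theorem hadamard_eq (α β : ℝ) (φ : ℂ → ℂ) {x : ℂ} (hx : ‖x‖ = 1) (z : ℂ) :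
    hadamard φ (kernel α β x) z = F α β (taylorCoeff φ) x z := by
  have h : ∀ k, taylorCoeff (kernel α β x) k = cf α β x k := by
    intro k
    apply coeff_eq_of_eqOn (GC_cf (α : ℂ) (β : ℂ) hx.le)
    intro z hz
    exact (kernel_hasSum α β hx.le hz).unique ((GC_cf (α : ℂ) (β : ℂ) hx.le).hasSum hz)
  simp only [hadamard, h]
  rfl

open Pool.Agent.H978R3 in
/-- **Normality of `T(α,β)`** for all real `α, β > 0`: every sequence in `T(α,β)` has a subsequence
converging locally uniformly in the unit disc to a holomorphic function. -/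
theorem result : ∀ α β : ℝ, 0 < α → 0 < β → ∀ φ : ℕ → ℂ → ℂ, (∀ k, φ k ∈ T α β) →
    ∃ (g : ℂ → ℂ) (s : ℕ → ℕ), StrictMono s ∧ DifferentiableOn ℂ g (ball 0 1) ∧
      TendstoLocallyUniformlyOn (fun k => φ (s k)) g atTop (ball 0 1) := by
  intro α β hα hβ φ hφ
  have hGC : ∀ k, GC (taylorCoeff (φ k)) := fun k => GC_taylor (hφ k).1
  have ha0 : ∀ k, taylorCoeff (φ k) 0 = 1 := by
    intro k
    simp [taylorCoeff, (hφ k).2.1]
  have hNV1 : ∀ k, ∀ x : ℂ, ‖x‖ = 1 → ∀ z : ℂ, ‖z‖ < 1 → F α β (taylorCoeff (φ k)) x z ≠ 0 := by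
    intro k x hx z hz
    rw [← hadamard_eq α β (φ k) hx z]
    exact (hφ k).2.2 x hx z (by simpa using hz)
  have hNV : ∀ k, ∀ x : ℂ, ‖x‖ ≤ 1 → ∀ z : ℂ, ‖z‖ < 1 → F α β (taylorCoeff (φ k)) x z ≠ 0 :=
    fun k => F_ne_zero (hGC k) (ha0 k) α β (hNV1 k)
  obtain ⟨b, s, hs, hb, hlim⟩ := montel (fun k => taylorCoeff (φ k)) (by
    intro r hr0 hr1
    obtain ⟨C, hC⟩ := coefficient_bound hα hβ hr0 hr1
    exact ⟨C, fun k n => hC _ (hGC k) (ha0 k) (hNV k) n⟩)
  refine ⟨S b, s, hs, hb.differentiableOn, ?_⟩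
  refine hlim.congr (fun k z hz => ?_)
  exact (eq_S_taylor (hφ (s k)).1 (by simpa using hz)).symm

end Pool.Agent.Results.MP_c40ba2_an.Normality
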